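import Mathlib.Data.Rat.Lemmas
import Mathlib.Algebra.BigOperators.Intervals
import Mathlib.Data.Nat.Prime.Basic
import Mathlib.Data.Nat.Factorial.Basic
import Mathlib.Tactic.NormNum.Prime
import Mathlib.Tactic.Ring
import Mathlib.Tactic.FieldSimp
import Mathlib.Tactic.Linarith
import Mathlib.Tactic.LinearCombination
import Mathlib.RingTheory.Coprime.Lemmas

set_option autoImplicit false

namespace Pool.Agent.Results.MP_270153_nt.NoConstantForFifteen

open Finset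

/-- the rising factorial `(a)_k = a (a+1) ... (a+k-1)` -/
def poch (a : ℚ) (k : ℕ) : ℚ := ∏ i ∈ range k, (a + i)

/-- `S_m(N) = ∑_{k=0}^{N} (4k-1)^m (-1/2)_k^4 / k!^4` -/
def S (m N : ℕ) : ℚ :=
  ∑ k ∈ range (N + 1), (4 * (k : ℚ) - 1) ^ m * poch (-1/2) k ^ 4 / (k.factorial : ℚ) ^ 4

/-- `x ≡ y (mod p^n)` for rational numbers: `x - y = p^n * (u / v)` with integers `u`, `v` and
`p` not dividing `v` -/
def Cong (p n : ℕ) (x y : ℚ) : Prop :=
  ∃ u v : ℤ, ¬ (p : ℤ) ∣ v ∧ x - y = (p : ℚ) ^ n * (u / v)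

/-- from a congruence modulo `5^n` to a divisibility of integers -/
lemma dvd_of_cong {n : ℕ} {x : ℚ} {a b c : ℤ} (hb : b ≠ 0) (hx : x = a / b)
    (h : Cong 5 n x c) : (5 : ℤ) ^ n ∣ a - b * c := by
  obtain ⟨u, v, hv, e⟩ := h
  have hv0 : v ≠ 0 := by rintro rfl; exact hv (dvd_zero _)
  have hbQ : (b : ℚ) ≠ 0 := by exact_mod_cast hb
  have hvQ : (v : ℚ) ≠ 0 := by exact_mod_cast hv0
  have h1 : ((a - b * c) * v : ℚ) = 5 ^ n * (u * b) := by
    have : (a : ℚ) / b - c = 5 ^ n * (u / v) := by rw [← hx, e]; push_cast; ring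
    field_simp at this
    linear_combination this
  have h2 : (a - b * c) * v = 5 ^ n * (u * b) := by exact_mod_cast h1
  have hcop : IsCoprime ((5 : ℤ) ^ n) v := by
    apply IsCoprime.pow_left
    rw [Int.isCoprime_iff_gcd_eq_one]
    have h5 : Nat.Prime 5 := by norm_num
    have : ¬ 5 ∣ v.natAbs := fun h => hv (by exact_mod_cast Int.natCast_dvd.mpr h)
    exact (Nat.Prime.coprime_iff_not_dvd h5).mpr this
  exact hcop.dvd_of_dvd_mul_right ⟨u * b, h2⟩

/-- For `m = 15` no integer `d` satisfies the congruences of Q1 for all primes `p > 3` and all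
`r ≥ 1`: `p = 5` with `r = 1` and `r = 2` is contradictory already. -/
theorem result : ∃ m : ℕ, Odd m ∧ ¬ ∃ d : ℤ, ∀ p : ℕ, p.Prime → 3 < p → ∀ r : ℕ, 1 ≤ r →
    Cong p (r + 3) (S m ((p ^ r + 1) / 2)) (d * (p : ℚ) ^ r) ∧
    Cong p (r + 3) (S m (p ^ r - 1)) (d * (p : ℚ) ^ r) := by
  refine ⟨15, by decide, ?_⟩
  rintro ⟨d, h⟩
  have h1 := (h 5 (by norm_num) (by norm_num) 1 (by norm_num)).1
  have h2 := (h 5 (by norm_num) (by norm_num) 2 (by norm_num)).1
  have e1 : S 15 ((5 ^ 1 + 1) / 2) = (4253267926632275 : ℤ) / (65536 : ℤ) := by decide +kernel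
  have e2 : S 15 ((5 ^ 2 + 1) / 2) = (550913570411112398834505539848007248519998875 : ℤ) / (4951760157141521099596496896 : ℤ) := by
    decide +kernel
  have c1 : Cong 5 4 (S 15 ((5 ^ 1 + 1) / 2)) ((5 * d : ℤ) : ℚ) := by
    have : ((5 * d : ℤ) : ℚ) = d * ((5 : ℕ) : ℚ) ^ 1 := by push_cast; ring
    rw [this]; exact h1
  have c2 : Cong 5 5 (S 15 ((5 ^ 2 + 1) / 2)) ((25 * d : ℤ) : ℚ) := by
    have : ((25 * d : ℤ) : ℚ) = d * ((5 : ℕ) : ℚ) ^ 2 := by push_cast; ring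
    rw [this]; exact h2
  have d1 := dvd_of_cong (by norm_num) e1 c1
  have d2 := dvd_of_cong (by norm_num) e2 c2
  norm_num at d1 d2
  omega

end Pool.Agent.Results.MP_270153_nt.NoConstantForFifteen
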